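import Mathlib
import Pool.Agent.H315R3.ETC.Defs
import Pool.Agent.H315R3.ETC.Basic

set_option autoImplicit false
set_option linter.unusedSimpArgs false

/-! Quaternionic structures whose value groups `V(a)`, `a ≠ 1, -1`, have at most four elements. -/

namespace Pool.Agent.U499.ETV

open Pool.Agent.H315R3.ETC

/-- the value groups `V(a)`, `a ≠ 1, -1`, have at most four elements -/
def Four (S : QData) : Prop := ∀ a : S.G, a ≠ 1 → a ≠ S.neg → ∀ x y : S.G,
  S.q a x = S.zero → S.q a y = S.zero →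
  x = 1 ∨ x = S.neg * a ∨ y = 1 ∨ y = S.neg * a ∨ y = x ∨ y = S.neg * a * x

section grp

variable {G : Type} [CommGroup G] (e2 : ∀ a : G, a * a = 1)

include e2 in
lemma ec (a b : G) : a * (a * b) = b := by rw [← mul_assoc, e2, one_mul]

include e2 in
/-- transport of equations -/
lemma tr {u v w w' : G} (e : u = v) (k : w * w' = u * v) : w = w' := by
  rw [e, e2] at k
  rw [mul_eq_one_iff_eq_inv] at k
  rw [k, inv_eq_iff_mul_eq_one]
  exact e2 _

end grp


section

variable {S : QData} (h : IsQuat S)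

include h in
lemma sy {a b : S.G} (e : S.q a b = S.zero) : S.q b a = S.zero := by rw [h.qs2]; exact e

include h in
lemma pm {a u v w : S.G} (h1 : S.q a u = S.zero) (h2 : S.q a v = S.zero) (e : w = u * v) :
    S.q a w = S.zero := by
  rw [e]
  exact p_mul h h1 h2

include h in
lemma link {a b c d : S.G} (e : S.q a b = S.q c d) :
    ∃ g : S.G, S.q a (b * g) = S.zero ∧ S.q c (d * g) = S.zero ∧ S.q g (a * c) = S.zero := by
  obtain ⟨g, h1, h2⟩ := h.qs4 a b c d e
  refine ⟨g, (h.qs3 _ _ _).1 h1, (h.qs3 _ _ _).1 h2, (h.qs3 _ _ _).1 ?_⟩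
  rw [h.qs2 g a, h.qs2 g c, ← h1, ← h2]
  exact e

/-- the pair `a, b` generates a nondegenerate triple `a, b, -ab` -/
structure Tri (S : QData) (a b : S.G) : Prop where
  a1 : a ≠ 1
  an : a ≠ S.neg
  b1 : b ≠ 1
  bn : b ≠ S.neg
  c1 : S.neg * a * b ≠ 1
  cn : S.neg * a * b ≠ S.neg
  ab : S.q a b = S.zero

include h in
lemma Tri.swap {a b : S.G} (t : Tri S a b) : Tri S b a where
  a1 := t.b1
  an := t.bn
  b1 := t.a1
  bn := t.an
  c1 := by
    have := t.c1
    rwa [mul_right_comm] at this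
  cn := by
    have := t.cn
    rwa [mul_right_comm] at this
  ab := sy h t.ab

include h in
lemma Tri.rot {a b : S.G} (t : Tri S a b) : Tri S a (S.neg * a * b) where
  a1 := t.a1
  an := t.an
  b1 := t.c1
  bn := t.cn
  c1 := by
    have : S.neg * a * (S.neg * a * b) = b := by simp only [mul_comm, mul_left_comm, mul_assoc, ec h.exp2, h.exp2, mul_one, one_mul]
    rw [this]
    exact t.b1
  cn := by
    have : S.neg * a * (S.neg * a * b) = b := by simp only [mul_comm, mul_left_comm, mul_assoc, ec h.exp2, h.exp2, mul_one, one_mul]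
    rw [this]
    exact t.bn
  ab := pm h (h.qs1 a) t.ab rfl

variable (h4 : Four S)

include h h4 in
lemma Tri.mem {a b : S.G} (t : Tri S a b) {y : S.G} (hy : S.q a y = S.zero) :
    y = 1 ∨ y = S.neg * a ∨ y = b ∨ y = S.neg * a * b := by
  rcases h4 a t.a1 t.an b y t.ab hy with h1 | h1 | h1
  · exact absurd h1 t.b1
  · exact absurd (by rw [h1, h.exp2]) t.c1
  · exact h1

variable (hn : S.neg ≠ 1)

include h h4 hn in
lemma Tri.neg {a b : S.G} (t : Tri S a b) (e : S.q (S.neg * a) b = S.zero) : False := by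
  rcases (t.swap h).mem h h4 (sy h e) with h1 | h1 | h1 | h1
  · exact t.an (tr h.exp2 h1 (by simp only [mul_comm, mul_left_comm, mul_assoc, ec h.exp2, h.exp2, mul_one, one_mul]))
  · exact t.cn (tr h.exp2 h1 (by simp only [mul_comm, mul_left_comm, mul_assoc, ec h.exp2, h.exp2, mul_one, one_mul]))
  · exact hn (tr h.exp2 h1 (by simp only [mul_comm, mul_left_comm, mul_assoc, ec h.exp2, h.exp2, mul_one, one_mul]))
  · exact t.b1 (tr h.exp2 h1 (by simp only [mul_comm, mul_left_comm, mul_assoc, ec h.exp2, h.exp2, mul_one, one_mul]))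

include h h4 hn in
lemma Tri.mone {a b : S.G} (t : Tri S a b) (e : S.q S.neg a = S.zero) : False := by
  rcases t.mem h h4 (sy h e) with h1 | h1 | h1 | h1
  · exact hn h1
  · exact t.a1 (tr h.exp2 h1 (by simp only [mul_comm, mul_left_comm, mul_assoc, ec h.exp2, h.exp2, mul_one, one_mul]))
  · exact t.bn h1.symm
  · exact t.cn h1.symm

include h h4 hn in
/-- `a` and `-a` are not both in nondegenerate triples -/
theorem lem1 {a b y : S.G} (t : Tri S a b) (u : Tri S (S.neg * a) y) : False := by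
  -- the elements
  have e1 : S.neg * (S.neg * a) * y = a * y := by simp only [mul_comm, mul_left_comm, mul_assoc, ec h.exp2, h.exp2, mul_one, one_mul]
  have ur := u.rot h
  rw [e1] at ur
  have tb := t.swap h
  -- `q(b,y) ≠ 0`
  have t0 : S.q b y ≠ S.zero := by
    intro e
    rcases tb.mem h h4 e with h1 | h1 | h1 | h1
    · exact u.b1 h1
    · refine (t.rot h).neg h h4 hn ?_
      have h2 : a * y = S.neg * a * b := by rw [h1]; simp only [mul_comm, mul_left_comm, mul_assoc, ec h.exp2, h.exp2, mul_one, one_mul]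
      rw [← h2]
      exact ur.ab
    · apply u.c1
      rw [h1]
      simp only [mul_comm, mul_left_comm, mul_assoc, ec h.exp2, h.exp2, mul_one, one_mul]
    · refine (t.rot h).neg h h4 hn ?_
      have h2 : y = S.neg * a * b := by rw [h1]; simp only [mul_comm, mul_left_comm, mul_assoc, ec h.exp2, h.exp2, mul_one, one_mul]
      rw [← h2]
      exact u.ab
  have pyz : S.q y (a * y) = S.zero := pm h (sy h u.ab) (h.qs1 y) (by simp only [mul_comm, mul_left_comm, mul_assoc, ec h.exp2, h.exp2, mul_one, one_mul])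
  have qbz : S.q b (a * y) = S.q b y := q_shift h y tb.ab
  -- the two common neighbours
  have f1 : S.q (b * y) (a * y) = S.q (S.neg * (b * y)) b := by
    rw [h.qs2 (b * y), h.qs2 (S.neg * (b * y)), mul_comm b y, q_shift h b (sy h pyz), h.qs2, qbz]
    have : S.neg * (y * b) = S.neg * b * y := by simp only [mul_comm, mul_left_comm, mul_assoc, ec h.exp2, h.exp2, mul_one, one_mul]
    rw [this, q_shift h y (h.qs1 b)]
  have f2 : S.q (b * (a * y)) y = S.q (S.neg * (b * (a * y))) b := by
    rw [h.qs2 (b * (a * y)), h.qs2 (S.neg * (b * (a * y))), mul_comm b (a * y), q_shift h b pyz,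
      h.qs2 y b, ← qbz]
    have : S.neg * (a * y * b) = S.neg * b * (a * y) := by simp only [mul_comm, mul_left_comm, mul_assoc, ec h.exp2, h.exp2, mul_one, one_mul]
    rw [this, q_shift h (a * y) (h.qs1 b)]
  obtain ⟨g, g1, -, g3⟩ := link h f1
  obtain ⟨k, k1, -, k3⟩ := link h f2
  have g4 : S.q S.neg g = S.zero := by
    have : b * y * (S.neg * (b * y)) = S.neg := by simp only [mul_comm, mul_left_comm, mul_assoc, ec h.exp2, h.exp2, mul_one, one_mul]
    rw [this] at g3
    exact sy h g3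
  have k4 : S.q S.neg k = S.zero := by
    have : b * (a * y) * (S.neg * (b * (a * y))) = S.neg := by simp only [mul_comm, mul_left_comm, mul_assoc, ec h.exp2, h.exp2, mul_one, one_mul]
    rw [this] at k3
    exact sy h k3
  have g5 : S.q g (b * y) = S.q b y := by
    rw [h.qs2, ← (h.qs3 _ _ _).2 g1, f1, h.qs2]
    have : S.neg * (b * y) = S.neg * b * y := by simp only [mul_comm, mul_left_comm, mul_assoc, ec h.exp2, h.exp2, mul_one, one_mul]
    rw [this, q_shift h y (h.qs1 b)]
  have k5 : S.q k (b * (a * y)) = S.q b y := by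
    rw [h.qs2, ← (h.qs3 _ _ _).2 k1, f2, h.qs2, ← qbz]
    have : S.neg * (b * (a * y)) = S.neg * b * (a * y) := by simp only [mul_comm, mul_left_comm, mul_assoc, ec h.exp2, h.exp2, mul_one, one_mul]
    rw [this, q_shift h (a * y) (h.qs1 b)]
  have key : ∀ g w : S.G, g ≠ 1 → S.q S.neg g = S.zero → S.q g w = S.zero →
      S.q S.neg w = S.zero ∨ S.q S.neg (S.neg * w) = S.zero := by
    intro g w h1 h2 h3
    by_cases hg : g = S.neg
    · rw [hg] at h3
      exact Or.inl h3
    rcases h4 g h1 hg S.neg w (sy h h2) h3 with e | e | e | e | e | e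
    · exact absurd e hn
    · exact absurd (tr h.exp2 e (by simp only [mul_comm, mul_left_comm, mul_assoc, ec h.exp2, h.exp2, mul_one, one_mul])) h1
    · left
      rw [e]
      exact q_one h _
    · right
      rw [e]
      have : S.neg * (S.neg * g) = g := by simp only [mul_comm, mul_left_comm, mul_assoc, ec h.exp2, h.exp2, mul_one, one_mul]
      rw [this]
      exact h2
    · right
      rw [e, h.exp2]
      exact q_one h _
    · left
      rw [e]
      have : S.neg * g * S.neg = g := by simp only [mul_comm, mul_left_comm, mul_assoc, ec h.exp2, h.exp2, mul_one, one_mul]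
      rw [this]
      exact h2
  have gne : g ≠ 1 := by
    rintro rfl
    apply t0
    rw [← g5, h.qs2]
    exact q_one h _
  have kne : k ≠ 1 := by
    rintro rfl
    apply t0
    rw [← k5, h.qs2]
    exact q_one h _
  obtain ⟨l, l1, l2, -⟩ := link h (g5.trans k5.symm)
  have fin : S.q S.neg a = S.zero ∨ S.q S.neg (S.neg * a) = S.zero := by
    rcases key g _ gne g4 l1 with h1 | h1 <;> rcases key k _ kne k4 l2 with h2 | h2
    · left; exact pm h h1 h2 (by simp only [mul_comm, mul_left_comm, mul_assoc, ec h.exp2, h.exp2, mul_one, one_mul])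
    · right; exact pm h h1 h2 (by simp only [mul_comm, mul_left_comm, mul_assoc, ec h.exp2, h.exp2, mul_one, one_mul])
    · right; exact pm h h1 h2 (by simp only [mul_comm, mul_left_comm, mul_assoc, ec h.exp2, h.exp2, mul_one, one_mul])
    · left; exact pm h h1 h2 (by simp only [mul_comm, mul_left_comm, mul_assoc, ec h.exp2, h.exp2, mul_one, one_mul])
  rcases fin with h1 | h1
  · exact t.mone h h4 hn h1
  · exact u.mone h h4 hn h1

include h h4 hn in
/-- the value group of `-a` -/
lemma Tri.vneg {a b : S.G} (t : Tri S a b) {g : S.G} (e : S.q (S.neg * a) g = S.zero) :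
    g = 1 ∨ g = S.neg ∨ g = a ∨ g = S.neg * a := by
  by_contra hc
  push Not at hc
  obtain ⟨c1, c2, c3, c4⟩ := hc
  refine lem1 h h4 hn t (y := g) ⟨?_, ?_, c1, c2, ?_, ?_, e⟩
  · exact fun e' => t.an (tr h.exp2 e' (by simp only [mul_comm, mul_left_comm, mul_assoc, ec h.exp2, h.exp2, mul_one, one_mul]))
  · exact fun e' => t.a1 (tr h.exp2 e' (by simp only [mul_comm, mul_left_comm, mul_assoc, ec h.exp2, h.exp2, mul_one, one_mul]))
  · exact fun e' => c3 (tr h.exp2 e' (by simp only [mul_comm, mul_left_comm, mul_assoc, ec h.exp2, h.exp2, mul_one, one_mul]))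
  · exact fun e' => c4 (tr h.exp2 e' (by simp only [mul_comm, mul_left_comm, mul_assoc, ec h.exp2, h.exp2, mul_one, one_mul]))

include h h4 in
lemma Tri.vin {a b : S.G} (t : Tri S a b) {A : Subgroup S.G} (nA : S.neg ∈ A) (aA : a ∈ A)
    (bA : b ∈ A) {w : S.G} (e : S.q w a = S.zero) : w ∈ A := by
  rcases t.mem h h4 (sy h e) with e | e | e | e
  · rw [e]; exact A.one_mem
  · rw [e]; exact A.mul_mem nA aA
  · rw [e]; exact bA
  · rw [e]; exact A.mul_mem (A.mul_mem nA aA) bA

include h h4 hn in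
lemma Tri.vin' {a b : S.G} (t : Tri S a b) {A : Subgroup S.G} (nA : S.neg ∈ A) (aA : a ∈ A)
    {w : S.G} (e : S.q w (S.neg * a) = S.zero) : w ∈ A := by
  rcases t.vneg h h4 hn (sy h e) with e | e | e | e
  · rw [e]; exact A.one_mem
  · rw [e]; exact nA
  · rw [e]; exact aA
  · rw [e]; exact A.mul_mem nA aA

include h in
lemma cancel_mem {A : Subgroup S.G} {u v : S.G} (hu : u ∈ A) (huv : u * v ∈ A) : v ∈ A :=
  (Subgroup.mul_mem_cancel_left A hu).1 huv

include h h4 in
lemma excl {A X : Subgroup S.G} (nA : S.neg ∈ A) (nX : S.neg ∈ X) {a b x y : S.G} (aA : a ∈ A)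
    (bA : b ∈ A) (xX : x ∈ X) (yX : y ∈ X) (t : Tri S a b) (u : Tri S x y)
    (hxA : x ∉ A) (hyA : y ∉ A) (haX : a ∉ X) (hbX : b ∉ X) {g : S.G}
    (h1 : S.q (b * x) (a * g) = S.zero) (h2 : S.q (a * y) (x * g) = S.zero) :
    (a * g ≠ 1 ∧ a * g ≠ S.neg * (b * x)) ∧ (x * g ≠ 1 ∧ x * g ≠ S.neg * (a * y)) := by
  have tc : Tri S (S.neg * a * b) a := (t.rot h).swap h
  have uz : Tri S (S.neg * x * y) x := (u.rot h).swap h
  have cA : S.neg * a * b ∈ A := A.mul_mem (A.mul_mem nA aA) bA
  have zX : S.neg * x * y ∈ X := X.mul_mem (X.mul_mem nX xX) yX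
  refine ⟨⟨fun e => ?_, fun e => ?_⟩, ⟨fun e => ?_, fun e => ?_⟩⟩
  · apply haX
    have e1 : g = a := tr h.exp2 e (by simp only [mul_comm, mul_left_comm, mul_assoc, ec h.exp2, h.exp2, mul_one, one_mul])
    rw [e1] at h2
    have h3 : S.q (a * y) (S.neg * x * y) = S.zero := pm h h2 (h.qs1 (a * y)) (by simp only [mul_comm, mul_left_comm, mul_assoc, ec h.exp2, h.exp2, mul_one, one_mul])
    exact (Subgroup.mul_mem_cancel_right X yX).1 (uz.vin h h4 nX zX xX h3)
  · apply hyA
    have e1 : x * g = S.neg * a * b := tr h.exp2 e (by simp only [mul_comm, mul_left_comm, mul_assoc, ec h.exp2, h.exp2, mul_one, one_mul])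
    rw [e1] at h2
    exact cancel_mem h aA (tc.vin h h4 nA cA aA h2)
  · apply hxA
    have e1 : g = x := tr h.exp2 e (by simp only [mul_comm, mul_left_comm, mul_assoc, ec h.exp2, h.exp2, mul_one, one_mul])
    rw [e1] at h1
    have h3 : S.q (b * x) (S.neg * a * b) = S.zero := pm h h1 (h.qs1 (b * x)) (by simp only [mul_comm, mul_left_comm, mul_assoc, ec h.exp2, h.exp2, mul_one, one_mul])
    exact cancel_mem h bA (tc.vin h h4 nA cA aA h3)
  · apply hbX
    have e1 : a * g = S.neg * x * y := tr h.exp2 e (by simp only [mul_comm, mul_left_comm, mul_assoc, ec h.exp2, h.exp2, mul_one, one_mul])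
    rw [e1] at h1
    exact (Subgroup.mul_mem_cancel_right X xX).1 (uz.vin h h4 nX zX xX h1)

include h h4 hn in
/-- the four common neighbours are different -/
lemma diff {A : Subgroup S.G} (nA : S.neg ∈ A) {a b x y : S.G} (aA : a ∈ A)
    (bA : b ∈ A) (t : Tri S a b) (u : Tri S x y) (hxA : x ∉ A) {g : S.G}
    (h1 : S.q (b * x) (a * g) = S.zero) (h2 : S.q g (S.neg * x) = S.zero) : False := by
  have tc : Tri S (S.neg * a * b) a := (t.rot h).swap h
  have cA : S.neg * a * b ∈ A := A.mul_mem (A.mul_mem nA aA) bA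
  apply hxA
  refine cancel_mem h bA ?_
  rcases u.vneg h h4 hn (sy h h2) with e | e | e | e
  · rw [e, mul_one] at h1
    exact t.vin h h4 nA aA bA h1
  · rw [e, mul_comm a] at h1
    exact t.vin' h h4 hn nA aA h1
  · rw [e] at h1
    have h3 : S.q (b * x) (S.neg * a * b) = S.zero := pm h h1 (h.qs1 (b * x)) (by simp only [mul_comm, mul_left_comm, mul_assoc, ec h.exp2, h.exp2, mul_one, one_mul])
    exact tc.vin h h4 nA cA aA h3
  · rw [e] at h1
    have h3 : S.q (b * x) (S.neg * (S.neg * a * b)) = S.zero :=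
      pm h h1 (h.qs1 (b * x)) (by simp only [mul_comm, mul_left_comm, mul_assoc, ec h.exp2, h.exp2, mul_one, one_mul])
    exact tc.vin' h h4 hn nA cA h3

include h h4 hn in
/-- two nondegenerate triples generate subgroups which meet outside `1, -1` -/
theorem lem2 {A X : Subgroup S.G} (nA : S.neg ∈ A) (nX : S.neg ∈ X) {a b x y : S.G} (aA : a ∈ A)
    (bA : b ∈ A) (xX : x ∈ X) (yX : y ∈ X) (t : Tri S a b) (u : Tri S x y)
    (hAX : ∀ w ∈ A, w ∈ X → w = 1 ∨ w = S.neg) : False := by
  have tr' := t.rot h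
  have ur' := u.rot h
  have cA : S.neg * a * b ∈ A := A.mul_mem (A.mul_mem nA aA) bA
  have zX : S.neg * x * y ∈ X := X.mul_mem (X.mul_mem nX xX) yX
  have oA : ∀ w ∈ A, w ≠ 1 → w ≠ S.neg → w ∉ X := fun w h1 h2 h3 h4 =>
    (hAX w h1 h4).elim h2 h3
  have oX : ∀ w ∈ X, w ≠ 1 → w ≠ S.neg → w ∉ A := fun w h1 h2 h3 h4 =>
    (hAX w h4 h1).elim h2 h3
  have haX := oA a aA t.a1 t.an
  have hbX := oA b bA t.b1 t.bn
  have hcX := oA _ cA t.c1 t.cn
  have hxA := oX x xX u.a1 u.an
  have hyA := oX y yX u.b1 u.bn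
  have hzA := oX _ zX u.c1 u.cn
  have q1 : S.q (b * x) a = S.q a x := by rw [h.qs2, q_shift h x t.ab]
  have q2 : S.q (S.neg * a * b * x) a = S.q a x := by rw [h.qs2, q_shift h x tr'.ab]
  have q3 : S.q (a * y) x = S.q a x := by rw [h.qs2, mul_comm, q_shift h a u.ab, h.qs2]
  have q4 : S.q (a * (S.neg * x * y)) x = S.q a x := by
    rw [h.qs2, mul_comm, q_shift h a ur'.ab, h.qs2]
  obtain ⟨g1, a1, b1, c1⟩ := link h (q1.trans q3.symm)
  obtain ⟨g2, a2, b2, c2⟩ := link h (q1.trans q4.symm)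
  obtain ⟨g3, a3, b3, c3⟩ := link h (q2.trans q3.symm)
  obtain ⟨g4, a4, b4, c4⟩ := link h (q2.trans q4.symm)
  obtain ⟨⟨p1, p1'⟩, r1, r1'⟩ := excl h h4 nA nX aA bA xX yX t u hxA hyA haX hbX a1 b1
  obtain ⟨⟨p2, p2'⟩, r2, r2'⟩ := excl h h4 nA nX aA bA xX zX t ur' hxA hzA haX hbX a2 b2
  obtain ⟨⟨p3, p3'⟩, r3, r3'⟩ := excl h h4 nA nX aA cA xX yX tr' u hxA hyA haX hcX a3 b3
  obtain ⟨⟨p4, p4'⟩, r4, r4'⟩ := excl h h4 nA nX aA cA xX zX tr' ur' hxA hzA haX hcX a4 b4
  -- the elements `bx`, `cx`, `ay`, `az`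
  have n1 : ∀ u v : S.G, u ∈ A → v ∈ X → u ∉ X → u * v ≠ 1 ∧ u * v ≠ S.neg := by
    intro u v _ hv hu
    constructor
    · intro e
      apply hu
      rw [eq_of_mul h _ _ e]
      exact hv
    · intro e
      apply hu
      have : u = S.neg * v := tr h.exp2 e (by simp only [mul_comm, mul_left_comm, mul_assoc, ec h.exp2, h.exp2, mul_one, one_mul])
      rw [this]
      exact X.mul_mem nX hv
  have m1 : g2 = S.neg * (b * x) * g1 := by
    obtain ⟨e1, e2⟩ := n1 b x bA xX hbX
    rcases h4 (b * x) e1 e2 _ _ a1 a2 with e | e | e | e | e | e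
    · exact absurd e p1
    · exact absurd e p1'
    · exact absurd e p2
    · exact absurd e p2'
    · exfalso
      have e' : g2 = g1 := mul_left_cancel e
      subst e'
      refine diff h h4 hn nA aA bA t u hxA a2 (pm h c1 c2 ?_)
      simp only [mul_comm, mul_left_comm, mul_assoc, ec h.exp2, h.exp2, mul_one, one_mul]
    · exact tr h.exp2 e (by simp only [mul_comm, mul_left_comm, mul_assoc, ec h.exp2, h.exp2, mul_one, one_mul])
  have m2 : g3 = S.neg * (a * y) * g1 := by
    obtain ⟨e1, e2⟩ := n1 a y aA yX haX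
    rcases h4 (a * y) e1 e2 _ _ b1 b3 with e | e | e | e | e | e
    · exact absurd e r1
    · exact absurd e r1'
    · exact absurd e r3
    · exact absurd e r3'
    · exfalso
      have e' : g3 = g1 := mul_left_cancel e
      subst e'
      rw [mul_comm a y] at b3
      refine diff h h4 hn nX xX yX u t haX b3 (pm h c1 c3 ?_)
      simp only [mul_comm, mul_left_comm, mul_assoc, ec h.exp2, h.exp2, mul_one, one_mul]
    · exact tr h.exp2 e (by simp only [mul_comm, mul_left_comm, mul_assoc, ec h.exp2, h.exp2, mul_one, one_mul])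
  have m3 : g4 = S.neg * (a * (S.neg * x * y)) * g2 := by
    obtain ⟨e1, e2⟩ := n1 a _ aA zX haX
    rcases h4 _ e1 e2 _ _ b2 b4 with e | e | e | e | e | e
    · exact absurd e r2
    · exact absurd e r2'
    · exact absurd e r4
    · exact absurd e r4'
    · exfalso
      have e' : g4 = g2 := mul_left_cancel e
      subst e'
      rw [mul_comm a] at b4
      refine diff h h4 hn nX xX zX ur' t haX b4 (pm h c2 c4 ?_)
      simp only [mul_comm, mul_left_comm, mul_assoc, ec h.exp2, h.exp2, mul_one, one_mul]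
    · exact tr h.exp2 e (by simp only [mul_comm, mul_left_comm, mul_assoc, ec h.exp2, h.exp2, mul_one, one_mul])
  have m4 : g4 = S.neg * (S.neg * a * b * x) * g3 := by
    obtain ⟨e1, e2⟩ := n1 _ x cA xX hcX
    rcases h4 _ e1 e2 _ _ a3 a4 with e | e | e | e | e | e
    · exact absurd e p3
    · exact absurd e p3'
    · exact absurd e p4
    · exact absurd e p4'
    · exfalso
      have e' : g4 = g3 := mul_left_cancel e
      subst e'
      refine diff h h4 hn nA aA cA tr' u hxA a4 (pm h c3 c4 ?_)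
      simp only [mul_comm, mul_left_comm, mul_assoc, ec h.exp2, h.exp2, mul_one, one_mul]
    · exact tr h.exp2 e (by simp only [mul_comm, mul_left_comm, mul_assoc, ec h.exp2, h.exp2, mul_one, one_mul])
  rw [m4, m2, m1] at m3
  apply haX
  have : a = x := tr h.exp2 m3 (by simp only [mul_comm, mul_left_comm, mul_assoc, ec h.exp2, h.exp2, mul_one, one_mul])
  rw [this]
  exact xX

end

end Pool.Agent.U499.ETV
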