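import Mathlib
import Pool.Agent.U499.ETV.Four
import Pool.Agent.TH673.VG.CritDefs

set_option autoImplicit false
set_option linter.unusedSimpArgs false

/-! The shape of the value groups, and the step criterion. -/

namespace Pool.Agent.U499.ETV

open Pool.Agent.H315R3.ETC

section

variable {S : QData} (h : IsQuat S)

/-- the subgroup generated by `-1, a, b` -/
def Oct (h : IsQuat S) (a b : S.G) : Subgroup S.G where
  carrier := {w | w = 1 ∨ w = S.neg ∨ w = a ∨ w = S.neg * a ∨ w = b ∨ w = S.neg * b ∨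
    w = S.neg * a * b ∨ w = S.neg * (S.neg * a * b)}
  one_mem' := Or.inl rfl
  mul_mem' := by
    intro u v hu hv
    rcases hu with hu | hu | hu | hu | hu | hu | hu | hu <;>
      rcases hv with hv | hv | hv | hv | hv | hv | hv | hv <;>
      (rw [hu, hv, Set.mem_ofPred_eq]
       simp only [mul_comm, mul_left_comm, mul_assoc, ec h.exp2, h.exp2, mul_one,
        one_mul, true_or, or_true])
  inv_mem' := by
    intro x hx
    have : x⁻¹ = x := by
      rw [inv_eq_iff_mul_eq_one]
      exact h.exp2 x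
    rw [this]
    exact hx

include h in
lemma card_oct (a b : S.G) : Nat.card (Oct h a b) ≤ 8 := by
  classical
  let f : Bool × Bool × Bool → S.G := fun p =>
    (if p.1 then S.neg else 1) * ((if p.2.1 then a else 1) * (if p.2.2 then b else 1))
  have hsub : ((Oct h a b : Subgroup S.G) : Set S.G) ⊆ f '' Set.univ := by
    intro w hw
    rcases hw with hw | hw | hw | hw | hw | hw | hw | hw
    · exact ⟨(false, false, false), trivial, by simp [f, hw]⟩
    · exact ⟨(true, false, false), trivial, by simp [f, hw]⟩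
    · exact ⟨(false, true, false), trivial, by simp [f, hw]⟩
    · exact ⟨(true, true, false), trivial, by simp [f, hw]⟩
    · exact ⟨(false, false, true), trivial, by simp [f, hw]⟩
    · exact ⟨(true, false, true), trivial, by simp [f, hw]⟩
    · exact ⟨(true, true, true), trivial, by simp [f, hw, mul_assoc]⟩
    · refine ⟨(false, true, true), trivial, ?_⟩
      rw [hw]
      have : S.neg * (S.neg * a * b) = a * b := by simp only [mul_comm, mul_left_comm, mul_assoc, ec h.exp2, h.exp2, mul_one, one_mul]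
      rw [this]
      simp [f]
  have h1 : ((Oct h a b : Subgroup S.G) : Set S.G).ncard ≤ (f '' Set.univ).ncard :=
    Set.ncard_le_ncard hsub (Set.toFinite _)
  have h2 : (f '' Set.univ).ncard ≤ (Set.univ : Set (Bool × Bool × Bool)).ncard :=
    Set.ncard_image_le (Set.toFinite _)
  have h3 : (Set.univ : Set (Bool × Bool × Bool)).ncard = 8 := by
    rw [Set.ncard_univ, Nat.card_eq_fintype_card]
    rfl
  have h4 : ((Oct h a b : Subgroup S.G) : Set S.G).ncard = Nat.card (Oct h a b) := rfl
  omega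

variable (h4 : Four S)

include h h4 in
/-- the shape of the value groups, `-1 ≠ 1` -/
theorem shape_neg (hn : S.neg ≠ 1) : ∃ A : Subgroup S.G, S.neg ∈ A ∧ Nat.card A ≤ 8 ∧
    ∀ a ∉ A, ∀ x : S.G, S.q a x = S.zero → x = 1 ∨ x = S.neg ∨ x = a ∨ x = S.neg * a := by
  by_cases hT : ∃ a b : S.G, Tri S a b
  swap
  · refine ⟨Oct h 1 1, Or.inr (Or.inl rfl), card_oct h 1 1, ?_⟩
    intro a ha x hx
    by_contra hc
    push Not at hc
    obtain ⟨c1, c2, c3, c4⟩ := hc
    refine hT ⟨a, x, ⟨?_, ?_, c1, c2, ?_, ?_, hx⟩⟩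
    · exact fun e => ha (by rw [e]; exact Subgroup.one_mem _)
    · exact fun e => ha (by rw [e]; exact Or.inr (Or.inl rfl))
    · exact fun e => c4 (tr h.exp2 e (by simp only [mul_comm, mul_left_comm, mul_assoc, ec h.exp2, h.exp2, mul_one, one_mul]))
    · exact fun e => c3 (tr h.exp2 e (by simp only [mul_comm, mul_left_comm, mul_assoc, ec h.exp2, h.exp2, mul_one, one_mul]))
  obtain ⟨a, b, t⟩ := hT
  have nA : S.neg ∈ Oct h a b := Or.inr (Or.inl rfl)
  have aA : a ∈ Oct h a b := Or.inr (Or.inr (Or.inl rfl))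
  have bA : b ∈ Oct h a b := Or.inr (Or.inr (Or.inr (Or.inr (Or.inl rfl))))
  have cA : S.neg * a * b ∈ Oct h a b := Subgroup.mul_mem _ (Subgroup.mul_mem _ nA aA) bA
  refine ⟨Oct h a b, nA, card_oct h a b, ?_⟩
  intro w hw x hx
  by_contra hc
  push Not at hc
  obtain ⟨c1, c2, c3, c4⟩ := hc
  have u : Tri S w x := by
    refine ⟨?_, ?_, c1, c2, ?_, ?_, hx⟩
    · exact fun e => hw (by rw [e]; exact Subgroup.one_mem _)
    · exact fun e => hw (by rw [e]; exact nA)
    · exact fun e => c4 (tr h.exp2 e (by simp only [mul_comm, mul_left_comm, mul_assoc, ec h.exp2, h.exp2, mul_one, one_mul]))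
    · exact fun e => c3 (tr h.exp2 e (by simp only [mul_comm, mul_left_comm, mul_assoc, ec h.exp2, h.exp2, mul_one, one_mul]))
  have nX : S.neg ∈ Oct h w x := Or.inr (Or.inl rfl)
  have wX : w ∈ Oct h w x := Or.inr (Or.inr (Or.inl rfl))
  have xX : x ∈ Oct h w x := Or.inr (Or.inr (Or.inr (Or.inr (Or.inl rfl))))
  refine lem2 h h4 hn nA nX aA bA wX xX t u ?_
  intro v hvA hvX
  by_contra hc
  push Not at hc
  obtain ⟨v1, vn⟩ := hc
  -- the element of the first triple
  have s1 : ∃ a' b', Tri S a' b' ∧ a' ∈ Oct h a b ∧ b' ∈ Oct h a b ∧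
      (v = a' ∨ v = S.neg * a') := by
    rcases hvA with e | e | e | e | e | e | e | e
    · exact absurd e v1
    · exact absurd e vn
    · exact ⟨a, b, t, aA, bA, Or.inl e⟩
    · exact ⟨a, b, t, aA, bA, Or.inr e⟩
    · exact ⟨b, a, t.swap h, bA, aA, Or.inl e⟩
    · exact ⟨b, a, t.swap h, bA, aA, Or.inr e⟩
    · exact ⟨_, a, (t.rot h).swap h, cA, aA, Or.inl e⟩
    · exact ⟨_, a, (t.rot h).swap h, cA, aA, Or.inr e⟩
  have s2 : ∃ x' y', Tri S x' y' ∧ (x' ∈ Oct h a b → y' ∈ Oct h a b → w ∈ Oct h a b) ∧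
      (v = x' ∨ v = S.neg * x') := by
    rcases hvX with e | e | e | e | e | e | e | e
    · exact absurd e v1
    · exact absurd e vn
    · exact ⟨w, x, u, fun h1 _ => h1, Or.inl e⟩
    · exact ⟨w, x, u, fun h1 _ => h1, Or.inr e⟩
    · exact ⟨x, w, u.swap h, fun _ h1 => h1, Or.inl e⟩
    · exact ⟨x, w, u.swap h, fun _ h1 => h1, Or.inr e⟩
    · exact ⟨_, w, (u.rot h).swap h, fun _ h1 => h1, Or.inl e⟩
    · exact ⟨_, w, (u.rot h).swap h, fun _ h1 => h1, Or.inr e⟩
  obtain ⟨a', b', t', aA', bA', e1⟩ := s1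
  obtain ⟨x', y', u', hw', e2⟩ := s2
  have e3 : x' = a' ∨ x' = S.neg * a' := by
    rcases e1 with e1 | e1 <;> rcases e2 with e2 | e2
    · exact Or.inl (e2.symm.trans e1)
    · right
      exact tr h.exp2 (e2.symm.trans e1) (by simp only [mul_comm, mul_left_comm, mul_assoc, ec h.exp2, h.exp2, mul_one, one_mul])
    · exact Or.inr (e2.symm.trans e1)
    · left
      exact tr h.exp2 (e2.symm.trans e1) (by simp only [mul_comm, mul_left_comm, mul_assoc, ec h.exp2, h.exp2, mul_one, one_mul])
  rcases e3 with e3 | e3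
  · rw [e3] at u' hw'
    apply hw
    apply hw' aA'
    rcases t'.mem h h4 u'.ab with e | e | e | e
    · rw [e]; exact Subgroup.one_mem _
    · rw [e]; exact Subgroup.mul_mem _ nA aA'
    · rw [e]; exact bA'
    · rw [e]; exact Subgroup.mul_mem _ (Subgroup.mul_mem _ nA aA') bA'
  · rw [e3] at u'
    exact lem1 h h4 hn t' u'

include h h4 in
/-- the shape of the value groups, `-1 = 1` -/
theorem shape_one (hn : S.neg = 1) [Finite S.G] : ∃ A : Subgroup S.G, Nat.card A ≤ 4 ∧
    ∀ a ∉ A, ∀ x : S.G, S.q a x = S.zero → x = 1 ∨ x = a := by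
  classical
  have F : ∀ a : S.G, a ≠ 1 → ∀ x y : S.G, S.q a x = S.zero → S.q a y = S.zero →
      x = 1 ∨ x = a ∨ y = 1 ∨ y = a ∨ y = x ∨ y = a * x := by
    intro a ha x y hx hy
    have := h4 a ha (by rw [hn]; exact ha) x y hx hy
    rwa [hn, one_mul] at this
  have htr : ∀ a b c : S.G, b ≠ 1 → S.q a b = S.zero → S.q b c = S.zero → S.q a c = S.zero := by
    intro a b c hb hab hbc
    rcases F b hb a c (sy h hab) hbc with e | e | e | e | e | e
    · rw [e, h.qs2]; exact q_one h c
    · rw [e]; exact hbc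
    · rw [e]; exact q_one h a
    · rw [e]; exact hab
    · rw [e]; exact q_self h hn a
    · rw [e]; exact p_mul h hab (q_self h hn a)
  obtain ⟨N, hN⟩ := shape h hn htr
  have hout : ∀ a ∉ N, ∀ x : S.G, S.q a x = S.zero → x = 1 ∨ x = a := by
    intro a ha x hx
    rcases (hN a x).1 hx with e | e | e | e
    · exact absurd (by rw [e]; exact N.one_mem) ha
    · exact Or.inl e
    · exact Or.inr e.symm
    · exact absurd e.1 ha
  refine ⟨N, ?_, hout⟩
  have hcard : ∀ u x : S.G, (∀ y ∈ N, y = 1 ∨ y = u ∨ y = x ∨ y = u * x) → Nat.card N ≤ 4 := by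
    intro u x hy
    have hsub : ((N : Subgroup S.G) : Set S.G) ⊆ ((({1, u, x, u * x} : Finset S.G)) : Set S.G) := by
      intro y hy'
      rw [Finset.mem_coe]
      simp only [Finset.mem_insert, Finset.mem_singleton]
      exact hy y hy'
    have h1 := Set.ncard_le_ncard hsub (Set.toFinite _)
    rw [Set.ncard_coe_finset] at h1
    have h2 : (({1, u, x, u * x} : Finset S.G)).card ≤ 4 := Finset.card_le_four
    exact h1.trans h2
  by_cases h1 : ∃ u ∈ N, u ≠ 1
  swap
  · push Not at h1
    exact hcard 1 1 fun y hy => Or.inl (h1 y hy)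
  obtain ⟨u, hu, hu1⟩ := h1
  by_cases h2 : ∃ x ∈ N, x ≠ 1 ∧ x ≠ u
  swap
  · push Not at h2
    refine hcard u 1 fun y hy => ?_
    by_cases hy1 : y = 1
    · exact Or.inl hy1
    · exact Or.inr (Or.inl (h2 y hy hy1))
  obtain ⟨x, hx, hx1, hxu⟩ := h2
  refine hcard u x fun y hy => ?_
  have hux : S.q u x = S.zero := (hN u x).2 (Or.inr (Or.inr (Or.inr ⟨hu, hx⟩)))
  have huy : S.q u y = S.zero := (hN u y).2 (Or.inr (Or.inr (Or.inr ⟨hu, hy⟩)))
  rcases F u hu1 x y hux huy with e | e | e | e | e | e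
  · exact absurd e hx1
  · exact absurd e hxu
  · exact Or.inl e
  · exact Or.inr (Or.inl e)
  · exact Or.inr (Or.inr (Or.inl e))
  · exact Or.inr (Or.inr (Or.inr e))

/-- the conclusion on the value groups -/
def Shaped (S : QData) (A : Subgroup S.G) : Prop :=
  S.neg ∈ A ∧ Nat.card A ≤ 8 ∧ (S.neg = 1 → Nat.card A ≤ 4) ∧
    ∀ a ∉ A, ∀ x : S.G, S.q a x = S.zero → x = 1 ∨ x = S.neg ∨ x = a ∨ x = S.neg * a

include h h4 in
theorem exists_shaped [Finite S.G] : ∃ A : Subgroup S.G, Shaped S A := by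
  by_cases hn : S.neg = 1
  · obtain ⟨A, h1, h2⟩ := shape_one h h4 hn
    refine ⟨A, by rw [hn]; exact A.one_mem, h1.trans (by norm_num), fun _ => h1, ?_⟩
    intro a ha x hx
    rcases h2 a ha x hx with e | e
    · exact Or.inl e
    · exact Or.inr (Or.inr (Or.inl e))
  · obtain ⟨A, h1, h2, h3⟩ := shape_neg h h4 hn
    exact ⟨A, h1, h2, fun e => absurd e hn, h3⟩

include h in
/-- the step criterion for the subgroups of index at least eight -/
theorem step_of_shaped [Finite S.G] {A : Subgroup S.G} (hA : Shaped S A) (H : Subgroup S.G)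
    (hi : 8 ≤ H.index) : Pool.Agent.TH673.VG.Step S H := by
  obtain ⟨nA, cA, cA1, hout⟩ := hA
  by_cases hT : A ⊔ H = ⊤
  · -- `A ∩ H = 1`
    have e1 : H.relIndex A = H.index := by
      rw [← Subgroup.relIndex_sup_right A H, hT, Subgroup.relIndex_top_right]
    have e2 : Nat.card (H.subgroupOf A) * H.relIndex A = Nat.card A :=
      Subgroup.card_mul_index _
    have e3 : Nat.card (H.subgroupOf A) ≤ 1 := by
      by_contra hc
      push Not at hc
      have : 2 * 8 ≤ Nat.card (H.subgroupOf A) * H.relIndex A :=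
        Nat.mul_le_mul hc (by rw [e1]; exact hi)
      omega
    have e4 : ∀ w ∈ A, w ∈ H → w = 1 := by
      intro w h1 h2
      have h3 : (⟨w, h1⟩ : A) ∈ H.subgroupOf A := h2
      have h4 : Subsingleton (H.subgroupOf A) :=
        (Nat.card_eq_one_iff_unique.1 (le_antisymm e3 Nat.card_pos)).1
      have h5 : (⟨⟨w, h1⟩, h3⟩ : H.subgroupOf A) = 1 := Subsingleton.elim _ _
      exact congrArg (fun z : H.subgroupOf A => ((z : A) : S.G)) h5
    have hn : S.neg ≠ 1 := by
      intro e
      have h1 := cA1 e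
      have h2 : Nat.card (H.subgroupOf A) * 8 ≤ Nat.card (H.subgroupOf A) * H.relIndex A :=
        Nat.mul_le_mul_left _ (by rw [e1]; exact hi)
      have h3 : 0 < Nat.card (H.subgroupOf A) := Nat.card_pos
      omega
    refine ⟨S.neg, fun hH => hn (e4 _ nA hH), ?_⟩
    intro k hk x hx
    by_cases hk1 : k = 1
    · rw [hk1, mul_one] at hx
      exact ⟨x, 1, hx, H.one_mem, mul_one x⟩
    have hkA : S.neg * k ∉ A := by
      intro hc
      exact hk1 (e4 k (cancel_mem h nA hc) hk)
    rcases hout _ hkA x hx with e | e | e | e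
    · exact ⟨1, 1, q_one h _, H.one_mem, by rw [e, mul_one]⟩
    · refine ⟨S.neg * k, k, ?_, hk, by rw [e, mul_assoc, h.exp2, mul_one]⟩
      rw [e] at hx
      exact sy h hx
    · refine ⟨S.neg * k, 1, ?_, H.one_mem, by rw [e, mul_one]⟩
      rw [e] at hx
      have h1 : S.q (S.neg * k) S.neg = S.zero := pm h hx (h.qs1 _) (by simp only [mul_comm, mul_left_comm, mul_assoc, ec h.exp2, h.exp2, mul_one, one_mul])
      exact sy h h1
    · refine ⟨1, k, q_one h _, hk, ?_⟩
      rw [e]
      simp only [mul_comm, mul_left_comm, mul_assoc, ec h.exp2, h.exp2, mul_one, one_mul]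
  · by_cases hnH : S.neg ∈ H
    · obtain ⟨a, ha⟩ : ∃ a : S.G, a ∉ A ⊔ H := by
        by_contra hc
        push Not at hc
        exact hT (eq_top_iff.2 fun x _ => hc x)
      refine ⟨a, fun hc => ha (le_sup_right (a := A) hc), ?_⟩
      intro k hk x hx
      have hkA : a * k ∉ A := by
        intro hc
        apply ha
        have h1 : a * k ∈ A ⊔ H := le_sup_left (b := H) hc
        exact (Subgroup.mul_mem_cancel_right _ (le_sup_right (a := A) hk)).1 h1
      rcases hout _ hkA x hx with e | e | e | e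
      · exact ⟨1, 1, q_one h _, H.one_mem, by rw [e, mul_one]⟩
      · exact ⟨1, S.neg, q_one h _, hnH, by rw [e, one_mul]⟩
      · refine ⟨S.neg * a, S.neg * k, h.qs1 a, H.mul_mem hnH hk, ?_⟩
        rw [e]
        simp only [mul_comm, mul_left_comm, mul_assoc, ec h.exp2, h.exp2, mul_one, one_mul]
      · refine ⟨S.neg * a, k, h.qs1 a, hk, ?_⟩
        rw [e]
        simp only [mul_comm, mul_left_comm, mul_assoc, ec h.exp2, h.exp2, mul_one, one_mul]
    · by_cases hex : ∃ a : S.G, a ∉ A ⊔ H ∧ S.q S.neg a = S.zero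
      · obtain ⟨a, ha, hna⟩ := hex
        refine ⟨a, fun hc => ha (le_sup_right (a := A) hc), ?_⟩
        intro k hk x hx
        have hkA : a * k ∉ A := by
          intro hc
          apply ha
          have h1 : a * k ∈ A ⊔ H := le_sup_left (b := H) hc
          exact (Subgroup.mul_mem_cancel_right _ (le_sup_right (a := A) hk)).1 h1
        rcases hout _ hkA x hx with e | e | e | e
        · exact ⟨1, 1, q_one h _, H.one_mem, by rw [e, mul_one]⟩
        · exact ⟨S.neg, 1, sy h hna, H.one_mem, by rw [e, mul_one]⟩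
        · refine ⟨a, k, pm h (sy h hna) (h.qs1 a) (by simp only [mul_comm, mul_left_comm, mul_assoc, ec h.exp2, h.exp2, mul_one, one_mul]), hk, e.symm⟩
        · refine ⟨S.neg * a, k, h.qs1 a, hk, ?_⟩
          rw [e]
          simp only [mul_comm, mul_left_comm, mul_assoc, ec h.exp2, h.exp2, mul_one, one_mul]
      · push Not at hex
        obtain ⟨a, ha⟩ : ∃ a : S.G, a ∉ A ⊔ H := by
          by_contra hc
          push Not at hc
          exact hT (eq_top_iff.2 fun x _ => hc x)
        refine ⟨a, fun hc => ha (le_sup_right (a := A) hc), ?_⟩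
        intro k hk x hx
        have hkS : a * k ∉ A ⊔ H := fun hc =>
          ha ((Subgroup.mul_mem_cancel_right _ (le_sup_right (a := A) hk)).1 hc)
        have hkA : a * k ∉ A := fun hc => hkS (le_sup_left (b := H) hc)
        rcases hout _ hkA x hx with e | e | e | e
        · exact ⟨1, 1, q_one h _, H.one_mem, by rw [e, mul_one]⟩
        · exfalso
          rw [e] at hx
          exact hex _ hkS (sy h hx)
        · exfalso
          rw [e] at hx
          exact hex _ hkS (sy h (pm h hx (h.qs1 _) (by simp only [mul_comm, mul_left_comm, mul_assoc, ec h.exp2, h.exp2, mul_one, one_mul])))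
        · refine ⟨S.neg * a, k, h.qs1 a, hk, ?_⟩
          rw [e]
          simp only [mul_comm, mul_left_comm, mul_assoc, ec h.exp2, h.exp2, mul_one, one_mul]

end

end Pool.Agent.U499.ETV
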