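import Mathlib
import Pool.Agent.U499.ETV.Shape
import Pool.Agent.TH673.VG.Crit

set_option autoImplicit false
set_option linter.unusedSimpArgs false

/-! The quotient by the radical, and the elementary type theorem. -/

namespace Pool.Agent.U499.ETV

open Pool.Agent.H315R3.ETC Pool.Agent.TH673.VG

section

variable {S : QData} (h : IsQuat S)

/-- the radical: the elements `r` with `V(r) = G` -/
def Rad (h : IsQuat S) : Subgroup S.G where
  carrier := {r | ∀ b : S.G, S.q r b = S.zero}
  one_mem' := fun b => by rw [h.qs2]; exact q_one h b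
  mul_mem' := fun hr hs b => by rw [h.qs2]; exact p_mul h (sy h (hr b)) (sy h (hs b))
  inv_mem' := by
    intro x hx
    have : x⁻¹ = x := by
      rw [inv_eq_iff_mul_eq_one]
      exact h.exp2 x
    rw [this]
    exact hx

include h in
lemma q_rad {a b r s : S.G} (hr : r ∈ Rad h) (hs : s ∈ Rad h) :
    S.q (a * r) (b * s) = S.q a b := by
  rw [mul_comm b s, q_shift h b (sy h (hs _)), h.qs2, mul_comm a r, q_shift h a (sy h (hr _)),
    h.qs2]

/-- the quotient of a quaternionic structure by its radical -/
def quo (h : IsQuat S) : QData where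
  G := S.G ⧸ Rad h
  Q := S.Q
  neg := QuotientGroup.mk S.neg
  q := fun u v => Quotient.liftOn₂' u v S.q (by
    intro a b a' b' h1 h2
    rw [QuotientGroup.leftRel_apply] at h1 h2
    have e1 : a' = a * (a⁻¹ * a') := by group
    have e2 : b' = b * (b⁻¹ * b') := by group
    rw [e1, e2]
    exact (q_rad h h1 h2).symm)
  zero := S.zero

lemma quo_q (a b : S.G) :
    (quo h).q (QuotientGroup.mk a : S.G ⧸ Rad h) (QuotientGroup.mk b : S.G ⧸ Rad h) = S.q a b :=
  rfl

theorem quo_isQuat : IsQuat (quo h) where
  exp2 := by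
    intro (a : S.G ⧸ Rad h)
    induction a using QuotientGroup.induction_on with
    | H a =>
      show (QuotientGroup.mk (a * a) : S.G ⧸ Rad h) = QuotientGroup.mk 1
      rw [h.exp2]
  qs1 := by
    intro (a : S.G ⧸ Rad h)
    induction a using QuotientGroup.induction_on with
    | H a => exact h.qs1 a
  qs2 := by
    intro (a : S.G ⧸ Rad h) (b : S.G ⧸ Rad h)
    induction a using QuotientGroup.induction_on with
    | H a =>
      induction b using QuotientGroup.induction_on with
      | H b => exact h.qs2 a b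
  qs3 := by
    intro (a : S.G ⧸ Rad h) (b : S.G ⧸ Rad h) (c : S.G ⧸ Rad h)
    induction a using QuotientGroup.induction_on with
    | H a =>
      induction b using QuotientGroup.induction_on with
      | H b =>
        induction c using QuotientGroup.induction_on with
        | H c => exact h.qs3 a b c
  qs4 := by
    intro (a : S.G ⧸ Rad h) (b : S.G ⧸ Rad h) (c : S.G ⧸ Rad h) (d : S.G ⧸ Rad h)
    induction a using QuotientGroup.induction_on with
    | H a =>
      induction b using QuotientGroup.induction_on with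
      | H b =>
        induction c using QuotientGroup.induction_on with
        | H c =>
          induction d using QuotientGroup.induction_on with
          | H d =>
            intro e
            obtain ⟨x, h1, h2⟩ := h.qs4 a b c d e
            exact ⟨(QuotientGroup.mk x : S.G ⧸ Rad h), h1, h2⟩

theorem step_lift (H : Subgroup S.G) (hR : Rad h ≤ H)
    (hs : Step (quo h) (H.map (QuotientGroup.mk' (Rad h)))) : Step S H := by
  obtain ⟨a, ha, hM⟩ := hs
  change ∀ k ∈ (H.map (QuotientGroup.mk' (Rad h))), ∀ x : S.G ⧸ Rad h, _ at hM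
  change S.G ⧸ Rad h at a
  induction a using QuotientGroup.induction_on with
  | H a =>
    refine ⟨a, fun hc => ha ⟨a, hc, rfl⟩, ?_⟩
    intro k hk x hx
    obtain ⟨v, k', hv, hk', e⟩ := hM (QuotientGroup.mk k) ⟨k, hk, rfl⟩ (QuotientGroup.mk x) hx
    change S.G ⧸ Rad h at v
    obtain ⟨k'', hk'', rfl⟩ := hk'
    induction v using QuotientGroup.induction_on with
    | H v =>
      have e1 : (QuotientGroup.mk (v * k'') : S.G ⧸ Rad h) = QuotientGroup.mk x := e
      rw [QuotientGroup.eq] at e1
      refine ⟨v, k'' * ((v * k'')⁻¹ * x), hv, H.mul_mem hk'' (hR e1), ?_⟩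
      group

include h in
theorem four_of_card [Finite S.G] (hc : ∀ a : S.G, a ≠ 1 → a ≠ S.neg →
    {b : S.G | S.q a b = S.zero}.ncard ≤ 4) : Four S := by
  classical
  intro a ha hn x y hx hy
  by_contra hcon
  push Not at hcon
  obtain ⟨c1, c2, c3, c4, c5, c6⟩ := hcon
  have hsub : (({1, S.neg * a, x, S.neg * a * x, y} : Finset S.G) : Set S.G) ⊆
      {b : S.G | S.q a b = S.zero} := by
    intro z hz
    rw [Finset.mem_coe] at hz
    simp only [Finset.mem_insert, Finset.mem_singleton] at hz
    rcases hz with e | e | e | e | e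
    · rw [e]; exact q_one h a
    · rw [e]; exact h.qs1 a
    · rw [e]; exact hx
    · rw [e]; exact p_mul h (h.qs1 a) hx
    · rw [e]; exact hy
  have h1 := Set.ncard_le_ncard hsub (Set.toFinite _)
  rw [Set.ncard_coe_finset] at h1
  have h2 : ({1, S.neg * a, x, S.neg * a * x, y} : Finset S.G).card = 5 := by
    rw [Finset.card_insert_of_notMem, Finset.card_insert_of_notMem, Finset.card_insert_of_notMem,
      Finset.card_insert_of_notMem, Finset.card_singleton]
    · rw [Finset.mem_singleton]
      exact c6.symm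
    · simp only [Finset.mem_insert, Finset.mem_singleton, not_or]
      refine ⟨fun e => ?_, c5.symm⟩
      exact hn (tr h.exp2 e (by simp only [mul_comm, mul_left_comm, mul_assoc, ec h.exp2, h.exp2, mul_one, one_mul]))
    · simp only [Finset.mem_insert, Finset.mem_singleton, not_or]
      refine ⟨c2.symm, fun e => ?_, c4.symm⟩
      exact c1 (tr h.exp2 e (by simp only [mul_comm, mul_left_comm, mul_assoc, ec h.exp2, h.exp2, mul_one, one_mul]))
    · simp only [Finset.mem_insert, Finset.mem_singleton, not_or]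
      refine ⟨fun e => ?_, c1.symm, fun e => ?_, c3.symm⟩
      · exact hn (tr h.exp2 e (by simp only [mul_comm, mul_left_comm, mul_assoc, ec h.exp2, h.exp2, mul_one, one_mul]))
      · exact c2 (tr h.exp2 e (by simp only [mul_comm, mul_left_comm, mul_assoc, ec h.exp2, h.exp2, mul_one, one_mul]))
  have h3 := hc a ha hn
  omega

theorem card_quo (a : S.G) : {b : S.G | S.q a b = S.zero}.ncard = Nat.card (Rad h) *
    {b : S.G ⧸ Rad h | (quo h).q (QuotientGroup.mk a : S.G ⧸ Rad h) b = (quo h).zero}.ncard := by
  have e := QuotientGroup.preimageMkEquivSubgroupProdSet (Rad h)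
    {b : S.G ⧸ Rad h | (quo h).q (QuotientGroup.mk a : S.G ⧸ Rad h) b = (quo h).zero}
  have e1 := Nat.card_congr e
  rw [Nat.card_prod] at e1
  exact e1

/-- the value groups modulo the radical have order at most four -/
def RFour (S : QData) : Prop := ∀ a : S.G, (∃ b : S.G, S.q a b ≠ S.zero) →
  (∃ b : S.G, S.q (S.neg * a) b ≠ S.zero) →
  {b : S.G | S.q a b = S.zero}.ncard ≤ 4 * {r : S.G | ∀ b : S.G, S.q r b = S.zero}.ncard

theorem quo_four [Finite S.G] (hR : RFour S) : Four (quo h) := by
  have : Finite (quo h).G := inferInstanceAs (Finite (S.G ⧸ Rad h))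
  apply four_of_card (quo_isQuat h)
  intro (a : S.G ⧸ Rad h)
  induction a using QuotientGroup.induction_on with
  | H a =>
    intro h1 h2
    have e1 : ∃ b : S.G, S.q a b ≠ S.zero := by
      by_contra hc
      push Not at hc
      apply h1
      show (QuotientGroup.mk a : S.G ⧸ Rad h) = 1
      rw [QuotientGroup.eq_one_iff]
      exact hc
    have e2 : ∃ b : S.G, S.q (S.neg * a) b ≠ S.zero := by
      by_contra hc
      push Not at hc
      apply h2
      show (QuotientGroup.mk a : S.G ⧸ Rad h) = QuotientGroup.mk S.neg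
      rw [QuotientGroup.eq]
      have : a⁻¹ * S.neg = S.neg * a := by
        rw [mul_comm]
        congr 1
        rw [inv_eq_iff_mul_eq_one]
        exact h.exp2 a
      rw [this]
      exact hc
    have e3 := hR a e1 e2
    rw [card_quo h a] at e3
    have e4 : {r : S.G | ∀ b : S.G, S.q r b = S.zero}.ncard = Nat.card (Rad h) := rfl
    rw [e4, mul_comm 4] at e3
    exact Nat.le_of_mul_le_mul_left e3 Nat.card_pos

include h in
/-- the structure theorem -/
theorem radical_shape [Finite S.G] (hR : RFour S) : ∃ A : Subgroup S.G,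
    (∀ r : S.G, (∀ b, S.q r b = S.zero) → r ∈ A) ∧ S.neg ∈ A ∧
    Nat.card A ≤ 8 * {r : S.G | ∀ b : S.G, S.q r b = S.zero}.ncard ∧
    ∀ a ∉ A, ∀ x : S.G, S.q a x = S.zero → ∃ r : S.G, (∀ b, S.q r b = S.zero) ∧
      (x = r ∨ x = S.neg * r ∨ x = a * r ∨ x = S.neg * a * r) := by
  have hf : Finite (quo h).G := inferInstanceAs (Finite (S.G ⧸ Rad h))
  obtain ⟨B, hB1, hB2, -, hB4⟩ := exists_shaped (quo_isQuat h) (quo_four h hR)
  change Subgroup (S.G ⧸ Rad h) at B
  refine ⟨B.comap (QuotientGroup.mk' (Rad h)), ?_, hB1, ?_, ?_⟩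
  · intro r hr
    have e : (QuotientGroup.mk r : S.G ⧸ Rad h) = 1 := by
      rw [QuotientGroup.eq_one_iff]
      exact hr
    show (QuotientGroup.mk r : S.G ⧸ Rad h) ∈ B
    rw [e]
    exact B.one_mem
  · have e1 := Nat.card_congr (QuotientGroup.preimageMkEquivSubgroupProdSet (Rad h)
      (B : Set (S.G ⧸ Rad h)))
    rw [Nat.card_prod] at e1
    have e2 : Nat.card (B.comap (QuotientGroup.mk' (Rad h))) =
      Nat.card (Rad h) * Nat.card B := e1
    have e3 : {r : S.G | ∀ b : S.G, S.q r b = S.zero}.ncard = Nat.card (Rad h) := rfl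
    rw [e2, e3, mul_comm]
    exact Nat.mul_le_mul_right _ hB2
  · intro a ha x hx
    have key : ∀ w : S.G, (QuotientGroup.mk x : S.G ⧸ Rad h) = QuotientGroup.mk w →
        ∃ r : S.G, (∀ b, S.q r b = S.zero) ∧ x = w * r := by
      intro w e
      rw [eq_comm, QuotientGroup.eq] at e
      exact ⟨w⁻¹ * x, e, by group⟩
    have h1 := hB4 (QuotientGroup.mk a : S.G ⧸ Rad h) ha (QuotientGroup.mk x : S.G ⧸ Rad h) hx
    rcases h1 with e | e | e | e
    · obtain ⟨r, hr, e'⟩ := key 1 e
      exact ⟨r, hr, Or.inl (by rw [e', one_mul])⟩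
    · obtain ⟨r, hr, e'⟩ := key _ e
      exact ⟨r, hr, Or.inr (Or.inl e')⟩
    · obtain ⟨r, hr, e'⟩ := key _ e
      exact ⟨r, hr, Or.inr (Or.inr (Or.inl e'))⟩
    · obtain ⟨r, hr, e'⟩ := key _ e
      exact ⟨r, hr, Or.inr (Or.inr (Or.inr e'))⟩

include h in
/-- the elementary type theorem -/
theorem elem_of_rfour [Finite S.G] (hR : RFour S) : Elem S := by
  have hf : Finite (quo h).G := inferInstanceAs (Finite (S.G ⧸ Rad h))
  obtain ⟨B, hB⟩ := exists_shaped (quo_isQuat h) (quo_four h hR)
  refine elem_of_step h fun H hH hI => stepTwo_of_step ?_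
  by_cases hi : H.index < 8
  · exact step_of_index h H hH hi
  have hRH : Rad h ≤ H := by
    intro r hr
    exact hI r fun x y => Or.inl (hr x)
  refine step_lift h H hRH ?_
  refine step_of_shaped (quo_isQuat h) hB _ ?_
  have e : (H.map (QuotientGroup.mk' (Rad h))).index = H.index := by
    apply Subgroup.index_map_eq H (QuotientGroup.mk'_surjective _)
    rw [QuotientGroup.ker_mk']
    exact hRH
  have e8 : 8 ≤ (H.map (QuotientGroup.mk' (Rad h))).index := by
    rw [e]
    omega
  exact e8

end

end Pool.Agent.U499.ETV
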