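import Mathlib
import Pool.Agent.U499.ETV.Quo
import Pool.Agent.Y920.ETC.Iter

set_option autoImplicit false
set_option linter.unusedSimpArgs false

/-! Value groups of order at most four: the basic part has order at most eight. -/

namespace Pool.Agent.U499.ETV

open Pool.Agent.H315R3.ETC Pool.Agent.Y920.ETC
open scoped Pointwise

section

variable {S : QData} (h : IsQuat S)

/-- a subgroup in a union of two subgroups -/
lemma sub_union {G : Type} [Group G] {B A W : Subgroup G} (hB : ∀ x ∈ B, x ∈ A ∨ x ∈ W) :
    B ≤ A ∨ B ≤ W := by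
  by_contra hc
  rw [not_or, SetLike.not_le_iff_exists, SetLike.not_le_iff_exists] at hc
  obtain ⟨⟨x, hx, hxA⟩, ⟨y, hy, hyW⟩⟩ := hc
  have hxW : x ∈ W := (hB x hx).resolve_left hxA
  have hyA : y ∈ A := (hB y hy).resolve_right hyW
  rcases hB _ (B.mul_mem hx hy) with h1 | h1
  · exact hxA ((Subgroup.mul_mem_cancel_right A hyA).1 h1)
  · exact hyW ((Subgroup.mul_mem_cancel_left W hxW).1 h1)

include h in
/-- the basic part has order at most eight -/
theorem card_bas [Finite S.G] (hc : ∀ a : S.G, a ≠ 1 →
    {b : S.G | S.q a b = S.zero}.ncard ≤ 4) (B : Subgroup S.G)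
    (hB : ∀ a : S.G, a ∈ B ↔ ¬ Bi S a) : Nat.card B ≤ 8 := by
  classical
  have h4 : Four S := four_of_card h fun a ha _ => hc a ha
  obtain ⟨A, nA, cA, cA1, hout⟩ := exists_shaped h h4
  by_cases hn : S.neg = 1
  · have hBA : B ≤ A := by
      intro a ha
      by_contra haA
      apply (hB a).1 ha
      have a1 : a ≠ 1 := fun e => haA (by rw [e]; exact A.one_mem)
      have key : Hr S a := by
        intro e he
        rcases hout a haA e he with e1 | e1 | e1 | e1
        · exact Or.inl e1
        · exact Or.inl (e1.trans hn)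
        · right; rw [e1, hn, one_mul]
        · exact Or.inr e1
      refine ⟨a1, by rw [hn]; exact a1, key, ?_⟩
      have : S.neg * a = a := by rw [hn, one_mul]
      rw [this]
      exact key
    have := Nat.card_le_card_of_injective (Subgroup.inclusion hBA) (Subgroup.inclusion_injective hBA)
    exact this.trans cA
  · -- `W = V(-1) ∪ -V(-1)`
    set W : Subgroup S.G := D h S.neg ⊔ Subgroup.zpowers S.neg with hW
    have cD : Nat.card (D h S.neg) ≤ 4 := hc _ hn
    have cZ : Nat.card (Subgroup.zpowers S.neg) ≤ 2 := by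
      rw [Nat.card_zpowers]
      exact orderOf_le_of_pow_eq_one (by norm_num) (by rw [pow_two]; exact h.exp2 _)
    have cW : Nat.card W ≤ 8 := by
      have h1 : ((W : Subgroup S.G) : Set S.G) =
          (D h S.neg : Set S.G) * (Subgroup.zpowers S.neg : Set S.G) := by
        rw [hW, Subgroup.mul_normal]
      have h2 : Nat.card W = (((D h S.neg : Set S.G) * (Subgroup.zpowers S.neg : Set S.G))).ncard := by
        rw [← h1]
        rfl
      rw [h2]
      have h3 := Set.natCard_mul_le (s := (D h S.neg : Set S.G))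
        (t := (Subgroup.zpowers S.neg : Set S.G))
      have h5 : Nat.card (D h S.neg) * Nat.card (Subgroup.zpowers S.neg) ≤ 4 * 2 :=
        Nat.mul_le_mul cD cZ
      exact h3.trans h5
    have hBW : ∀ x ∈ B, x ∈ A ∨ x ∈ W := by
      intro a ha
      by_contra hcon
      rw [not_or] at hcon
      obtain ⟨haA, haW⟩ := hcon
      apply (hB a).1 ha
      have nW : S.neg ∈ W := (le_sup_right (a := D h S.neg)) (Subgroup.mem_zpowers _)
      have a1 : a ≠ 1 := fun e => haA (by rw [e]; exact A.one_mem)
      have a2 : a ≠ S.neg := fun e => haA (by rw [e]; exact nA)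
      have naA : S.neg * a ∉ A := fun hc' => haA (cancel_mem h nA hc')
      have naW : S.neg * a ∉ W := fun hc' => haW (cancel_mem h nW hc')
      have key : ∀ a : S.G, a ∉ A → a ∉ W → Hr S a := by
        intro a haA haW e he
        have hna : ¬ S.q S.neg a = S.zero := fun hc' => haW ((le_sup_left (a := D h S.neg)) hc')
        rcases hout a haA e he with e1 | e1 | e1 | e1
        · exact Or.inl e1
        · exfalso
          rw [e1] at he
          exact hna (sy h he)
        · exfalso
          rw [e1] at he
          exact hna (sy h (pm h he (h.qs1 _) (by simp only [mul_comm, mul_left_comm, mul_assoc, ec h.exp2, h.exp2, mul_one, one_mul])))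
        · exact Or.inr e1
      exact ⟨a1, a2, key a haA haW, key _ naA naW⟩
    rcases sub_union hBW with h1 | h1
    · exact (Nat.card_le_card_of_injective (Subgroup.inclusion h1)
        (Subgroup.inclusion_injective h1)).trans cA
    · exact (Nat.card_le_card_of_injective (Subgroup.inclusion h1)
        (Subgroup.inclusion_injective h1)).trans cW

/-- iterated group extensions of structures with at most eight elements -/
theorem iter_four : ∀ n : ℕ, ∀ S : QData, IsQuat S → Finite S.G →
    Nat.card S.G ≤ n → (∀ a : S.G, a ≠ 1 → {b : S.G | S.q a b = S.zero}.ncard ≤ 4) →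
    ∃ (T : QData) (k : ℕ), IsQuat T ∧ Finite T.G ∧ Nat.card T.G ≤ 8 ∧
      2 ^ k * Nat.card T.G = Nat.card S.G ∧ Iso (ext^[k] T) S := by
  intro n
  induction n with
  | zero =>
    intro S h hf hc
    have : 0 < Nat.card S.G := Nat.card_pos
    omega
  | succ n ih =>
    intro S h hf hc hN
    by_cases hs : Nat.card S.G ≤ 8
    · exact ⟨S, 0, h, hf, hs, by simp, iso_refl S⟩
    push Not at hs
    obtain ⟨B, hB⟩ := Pool.Agent.Y67.ET.t_BASIC S h
    have hBc := card_bas h hN B hB
    obtain ⟨b, hb⟩ : ∃ b : S.G, Bi S b := by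
      by_contra hcon
      push Not at hcon
      have hBt : B = ⊤ := eq_top_iff.2 fun x _ => (hB x).2 (hcon x)
      rw [hBt, Subgroup.card_top] at hBc
      omega
    obtain ⟨T, hT, hTf, hTc, hTi, hTN⟩ := bi_ext h hb
    have hTpos : 0 < Nat.card T.G := Nat.card_pos
    obtain ⟨R, k, hR, hRf, hRc, hRk, hRi⟩ := ih T hT hTf (by omega) (hTN 4 hN)
    refine ⟨R, k + 1, hR, hRf, hRc, ?_, ?_⟩
    · rw [pow_succ, mul_comm (2 ^ k) 2, mul_assoc, hRk, hTc]
    · rw [Function.iterate_succ_apply']
      exact iso_trans (iso_ext hRi) hTi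

end

end Pool.Agent.U499.ETV
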