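import Mathlib
import Pool.Agent.U499.ETV.Bas
import Pool.Agent.TH188.ET.Struct
import Pool.Agent.Y920.ETC.FieldR

set_option autoImplicit false

/-! Fields whose norm groups have order at most four modulo the Kaplansky radical. -/

namespace Pool.Agent.U499.ETV

open scoped Quaternion
open Pool.Agent.H315R3.ETC Pool.Agent.TH188.ET Pool.Agent.Y920.ETC

section

variable {F : Type*} [Field F]

/-- the group of the nonzero values of `x² - a y²` -/
def nGr (a : Fˣ) : Subgroup Fˣ where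
  carrier := {c | ∃ x y : F, (c : F) = x ^ 2 - a * y ^ 2}
  one_mem' := NormFrom.one a
  mul_mem' := NormFrom.mul
  inv_mem' := NormFrom.inv

variable {S : QData} {φ : Fˣ →* S.G} (hs : Function.Surjective φ)
  (hk : ∀ a : Fˣ, φ a = 1 ↔ ∃ b : Fˣ, a = b ^ 2) (hn : φ (-1) = S.neg)
  (hz : ∀ a b : Fˣ, S.q (φ a) (φ b) = S.zero ↔ NormFrom a b)

include hs hz in
lemma V_map (a : Fˣ) : {b : S.G | S.q (φ a) b = S.zero} =
    (((nGr a).map φ : Subgroup S.G) : Set S.G) := by
  ext b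
  obtain ⟨c, rfl⟩ := hs b
  constructor
  · intro hc
    exact ⟨c, (hz a c).1 hc, rfl⟩
  · rintro ⟨d, hd, hdc⟩
    have h1 : S.q (φ a) (φ d) = S.zero := (hz a d).2 hd
    rw [hdc] at h1
    exact h1

/-- the Kaplansky radical: the intersection of all norm groups -/
def kap (F : Type*) [Field F] : Subgroup Fˣ := ⨅ a : Fˣ, nGr a

include hs hz in
lemma R_map (h : IsQuat S) : {r : S.G | ∀ b : S.G, S.q r b = S.zero} =
    (((kap F).map φ : Subgroup S.G) : Set S.G) := by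
  ext r
  obtain ⟨c, rfl⟩ := hs r
  constructor
  · intro hc
    refine ⟨c, ?_, rfl⟩
    show c ∈ (⨅ a : Fˣ, nGr a : Subgroup Fˣ)
    rw [Subgroup.mem_iInf]
    intro a
    refine (hz a c).1 ?_
    rw [h.qs2]
    exact hc (φ a)
  · rintro ⟨d, hd, hdc⟩ b
    change d ∈ (⨅ a : Fˣ, nGr a : Subgroup Fˣ) at hd
    rw [Subgroup.mem_iInf] at hd
    obtain ⟨b, rfl⟩ := hs b
    rw [← hdc, h.qs2]
    exact (hz b d).2 (hd b)

lemma kap_le (a : Fˣ) : kap F ≤ nGr a := iInf_le _ a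

include hk in
lemma ker_le : φ.ker ≤ kap F := by
  intro a ha
  obtain ⟨b, rfl⟩ := (hk a).1 ha
  show b ^ 2 ∈ (⨅ a : Fˣ, nGr a : Subgroup Fˣ)
  rw [Subgroup.mem_iInf]
  intro c
  exact NormFrom.sq c b

include hk in
lemma card_rel {A : Subgroup Fˣ} (hA : kap F ≤ A) :
    Nat.card (A.map φ) = Nat.card ((kap F).map φ) * (kap F).relIndex A := by
  rw [← Subgroup.relIndex_ker, ← Subgroup.relIndex_ker]
  exact (Subgroup.relIndex_mul_relIndex _ _ _ (ker_le hk) hA).symm

include hs hk hz in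
theorem rfour_of_field (h : IsQuat S) (hn : φ (-1) = S.neg)
    (hF : ∀ a : Fˣ, a ∉ kap F → -a ∉ kap F → (kap F).relIndex (nGr a) ≤ 4) : RFour S := by
  intro a ha1 ha2
  obtain ⟨a, rfl⟩ := hs a
  rw [V_map hs hz, R_map hs hz h]
  have e1 : (((nGr a).map φ : Subgroup S.G) : Set S.G).ncard = Nat.card ((nGr a).map φ) := rfl
  have e2 : (((kap F).map φ : Subgroup S.G) : Set S.G).ncard = Nat.card ((kap F).map φ) := rfl
  rw [e1, e2, card_rel hk (kap_le a), mul_comm]
  refine Nat.mul_le_mul_right _ (hF a ?_ ?_)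
  · intro hc
    obtain ⟨b, hb⟩ := ha1
    have h1 : φ a ∈ {r : S.G | ∀ b : S.G, S.q r b = S.zero} := by
      rw [R_map hs hz h]
      exact ⟨a, hc, rfl⟩
    exact hb (h1 b)
  · intro hc
    obtain ⟨b, hb⟩ := ha2
    have h1 : φ (-a) ∈ {r : S.G | ∀ b : S.G, S.q r b = S.zero} := by
      rw [R_map hs hz h]
      exact ⟨-a, hc, rfl⟩
    have h2 : φ (-a) = S.neg * φ a := by
      rw [← hn, ← map_mul, neg_one_mul]
    rw [h2] at h1
    exact hb (h1 b)

include hs hk hz in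
theorem shape_of_field (h : IsQuat S) [Finite S.G] (hn : φ (-1) = S.neg) (hR : RFour S) :
    ∃ A : Subgroup Fˣ, kap F ≤ A ∧ -1 ∈ A ∧ (kap F).relIndex A ≤ 8 ∧
      ∀ a : Fˣ, a ∉ A → ∀ x ∈ nGr a, ∃ r ∈ kap F,
        x = r ∨ x = -r ∨ x = a * r ∨ x = -(a * r) := by
  obtain ⟨B, h1, h2, h3, h4⟩ := radical_shape h hR
  have hRB : ∀ r ∈ kap F, φ r ∈ B := by
    intro r hr
    apply h1
    have h5 : φ r ∈ {r : S.G | ∀ b : S.G, S.q r b = S.zero} := by
      rw [R_map hs hz h]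
      exact ⟨r, hr, rfl⟩
    exact h5
  have hkB : kap F ≤ B.comap φ := fun r hr => hRB r hr
  refine ⟨B.comap φ, hkB, ?_, ?_, ?_⟩
  · show φ (-1) ∈ B
    rw [hn]
    exact h2
  · have e1 := card_rel hk hkB
    rw [Subgroup.map_comap_eq_self_of_surjective hs] at e1
    have e2 : {r : S.G | ∀ b : S.G, S.q r b = S.zero}.ncard = Nat.card ((kap F).map φ) := by
      rw [R_map hs hz h]
      rfl
    rw [e1, e2, mul_comm] at h3
    exact Nat.le_of_mul_le_mul_right h3 Nat.card_pos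
  · intro a ha x hx
    obtain ⟨r, hr, hr'⟩ := h4 (φ a) ha (φ x) ((hz a x).2 hx)
    have hr1 : r ∈ {r : S.G | ∀ b : S.G, S.q r b = S.zero} := hr
    rw [R_map hs hz h] at hr1
    obtain ⟨r, hrk, rfl⟩ := hr1
    have key : ∀ w : Fˣ, φ x = φ (w * r) → ∃ r' ∈ kap F, x = w * r' := by
      intro w e
      have e1 : (w * r)⁻¹ * x ∈ φ.ker := by
        rw [MonoidHom.mem_ker, map_mul, map_inv, e, inv_mul_cancel]
      exact ⟨r * ((w * r)⁻¹ * x), (kap F).mul_mem hrk (ker_le hk e1), by group⟩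
    rcases hr' with e | e | e | e
    · obtain ⟨r', h5, h6⟩ := key 1 (by rw [one_mul]; exact e)
      exact ⟨r', h5, Or.inl (by rw [h6, one_mul])⟩
    · obtain ⟨r', h5, h6⟩ := key (-1) (by rw [map_mul, hn]; exact e)
      exact ⟨r', h5, Or.inr (Or.inl (by rw [h6, neg_one_mul]))⟩
    · obtain ⟨r', h5, h6⟩ := key a (by rw [map_mul]; exact e)
      exact ⟨r', h5, Or.inr (Or.inr (Or.inl h6))⟩
    · obtain ⟨r', h5, h6⟩ := key (-a) (by rw [map_mul, ← neg_one_mul, map_mul, hn]; exact e)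
      exact ⟨r', h5, Or.inr (Or.inr (Or.inr (by rw [h6, neg_mul])))⟩

end

/-- more than sixteen square classes: reduction to the residue field -/
theorem reduce4 (hres : S_RES) {F : Type} [Field F] (h2 : (2 : F) ≠ 0)
    (hfin : (sqG F).index ≠ 0)
    (hsmall : ∀ a : Fˣ, a ∉ sqG F → (sqG F).relIndex (nG a) ≤ 4)
    (hlarge : 16 < (sqG F).index) :
    ∃ O : ValuationSubring F, Red F O 4 ∧
      (sqG (IsLocalRing.ResidueField O)).index ≤ 16 ∧
      ∃ (k : ℕ) (T : QData), 1 ≤ k ∧ 2 ^ k * (sqG (IsLocalRing.ResidueField O)).index =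
        (sqG F).index ∧ IsStructureOf (IsLocalRing.ResidueField O) T ∧
        IsStructureOf F (ext^[k] T) := by
  obtain ⟨S, hS, hSf, hSq⟩ := exists_structure h2 (finSq_of_index hfin)
  have hS' := hS
  obtain ⟨φ, hs, hk, hn, h0, hq⟩ := hS
  obtain ⟨B, hB⟩ := Pool.Agent.Y67.ET.t_BASIC S hSq
  have hcard : Nat.card S.G = (sqG F).index := card_eq hs hk
  have hvs : ∀ g : S.G, g ≠ 1 → vs S g ≤ 4 := by
    intro g hg
    obtain ⟨a, rfl⟩ := hs g
    rw [vs_eq hs hk h0 hq h2]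
    refine hsmall a fun ha => hg ?_
    rw [hk]
    exact mem_sqG.1 ha
  have hBc := card_bas hSq hvs B hB
  obtain ⟨O, hO, hOc, hc⟩ := exists_val hs hk hn h0 hq h2 B hB (by omega)
  obtain ⟨h2k, hstr, hbi⟩ := hres F O hO S φ hs hk hn h0 hq
  have hneg : S.neg ∈ O.unitGroup.map φ := by
    by_contra hc'
    exact (hbi _ hc').2.1 rfl
  have hstr' := hstr hneg
  have hfK : Finite (restrN S (O.unitGroup.map φ) hneg).G :=
    inferInstanceAs (Finite (O.unitGroup.map φ))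
  obtain ⟨k, hk1, hk2⟩ := chain _ S hSq hSf le_rfl (O.unitGroup.map φ) hneg hbi
  have hqK := (isQuat_restrN hSq (O.unitGroup.map φ) hneg hbi).1
  obtain ⟨ψ, hs', hk', hn', h0', hq'⟩ := hstr'
  have hcκ : Nat.card (O.unitGroup.map φ) = (sqG (IsLocalRing.ResidueField O)).index :=
    card_eq hs' hk'
  have hpos : 0 < Nat.card (O.unitGroup.map φ) := Nat.card_pos
  refine ⟨O, ⟨hO, h2k, by omega, ?_⟩, by omega, k, restrN S (O.unitGroup.map φ) hneg, ?_, ?_,
    hstr hneg, ?_⟩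
  · intro a ha
    have hne : ψ a ≠ 1 := by
      intro e
      apply ha
      rw [mem_sqG, ← hk']
      exact e
    have e1 : vs (restrN S (O.unitGroup.map φ) hneg) (ψ a) = vs S (ψ a).1 :=
      vs_restrN hSq (O.unitGroup.map φ) hneg hbi (ψ a) hne
    rw [← vs_eq hs' hk' h0' hq' h2k, e1]
    exact hvs _ fun e => hne (Subtype.ext e)
  · by_contra hk0
    have hk0' : k = 0 := by omega
    rw [hk0', pow_zero, one_mul] at hk1
    omega
  · rw [← hcκ, hk1, hcard]
  · refine structure_iso hS' (iso_symm hk2) ?_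
    have h1q : (restrN S (O.unitGroup.map φ) hneg).q 1 1 =
        (restrN S (O.unitGroup.map φ) hneg).zero := h0
    have : ∀ (k : ℕ) (T : QData), T.q 1 1 = T.zero → (ext^[k] T).q 1 1 = (ext^[k] T).zero := by
      intro k T hT
      induction k with
      | zero => exact hT
      | succ k ih =>
        rw [Function.iterate_succ_apply']
        show (((ext^[k] T).q 1 1, pw (pw (ext^[k] T).neg 1) 1 * pw 1 1 * pw 1 1) :
          (ext^[k] T).Q × (ext^[k] T).G) = ((ext^[k] T).zero, 1)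
        rw [ih]
        simp [pw]
    exact this k _ h1q

end Pool.Agent.U499.ETV
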