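import Mathlib
import Pool.Agent.U499.ETV.Fld
import Pool.Agent.Y920.ETC.GalH
import Pool.Agent.Y620.ET.Extv
import Pool.Agent.Y37.ET.Max2

set_option autoImplicit false
set_option linter.unusedSimpArgs false

/-! Galois groups: norm groups with at most four classes, without a bound on `N(-1)`. -/

namespace Pool.Agent.U499.ETV

open Pool.Agent.H315R3.ETC Pool.Agent.TH188.ET Pool.Agent.Y920.ETC
open scoped Pointwise Quaternion

section

variable {S : QData} (h : IsQuat S)

include h in
/-- the basic part has order at most eight or is contained in `V(-1) ∪ -V(-1)` -/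
theorem card_bas2 [Finite S.G] (hc : ∀ a : S.G, a ≠ 1 → a ≠ S.neg →
    {b : S.G | S.q a b = S.zero}.ncard ≤ 4) (B : Subgroup S.G)
    (hB : ∀ a : S.G, a ∈ B ↔ ¬ Bi S a) :
    Nat.card B ≤ 8 ∨ (S.neg ≠ 1 ∧ Nat.card B ≤ 2 * vs S S.neg) := by
  classical
  have h4 : Four S := four_of_card h hc
  obtain ⟨A, nA, cA, cA1, hout⟩ := exists_shaped h h4
  by_cases hn : S.neg = 1
  · have hBA : B ≤ A := by
      intro a ha
      by_contra haA
      apply (hB a).1 ha
      have a1 : a ≠ 1 := fun e => haA (by rw [e]; exact A.one_mem)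
      have key : Hr S a := by
        intro e he
        rcases hout a haA e he with e1 | e1 | e1 | e1
        · exact Or.inl e1
        · exact Or.inl (e1.trans hn)
        · right; rw [e1, hn, one_mul]
        · exact Or.inr e1
      refine ⟨a1, by rw [hn]; exact a1, key, ?_⟩
      have : S.neg * a = a := by rw [hn, one_mul]
      rw [this]
      exact key
    have := Nat.card_le_card_of_injective (Subgroup.inclusion hBA) (Subgroup.inclusion_injective hBA)
    exact Or.inl (this.trans cA)
  · -- `W = V(-1) ∪ -V(-1)`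
    set W : Subgroup S.G := D h S.neg ⊔ Subgroup.zpowers S.neg with hW
    have cZ : Nat.card (Subgroup.zpowers S.neg) ≤ 2 := by
      rw [Nat.card_zpowers]
      exact orderOf_le_of_pow_eq_one (by norm_num) (by rw [pow_two]; exact h.exp2 _)
    have cW : Nat.card W ≤ 2 * vs S S.neg := by
      have h1 : ((W : Subgroup S.G) : Set S.G) =
          (D h S.neg : Set S.G) * (Subgroup.zpowers S.neg : Set S.G) := by
        rw [hW, Subgroup.mul_normal]
      have h2 : Nat.card W = (((D h S.neg : Set S.G) * (Subgroup.zpowers S.neg : Set S.G))).ncard := by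
        rw [← h1]
        rfl
      rw [h2]
      have h3 := Set.natCard_mul_le (s := (D h S.neg : Set S.G))
        (t := (Subgroup.zpowers S.neg : Set S.G))
      have h5 : Nat.card (D h S.neg) * Nat.card (Subgroup.zpowers S.neg) ≤ vs S S.neg * 2 :=
        Nat.mul_le_mul_left _ cZ
      rw [mul_comm 2]
      exact h3.trans h5
    have hBW : ∀ x ∈ B, x ∈ A ∨ x ∈ W := by
      intro a ha
      by_contra hcon
      rw [not_or] at hcon
      obtain ⟨haA, haW⟩ := hcon
      apply (hB a).1 ha
      have nW : S.neg ∈ W := (le_sup_right (a := D h S.neg)) (Subgroup.mem_zpowers _)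
      have a1 : a ≠ 1 := fun e => haA (by rw [e]; exact A.one_mem)
      have a2 : a ≠ S.neg := fun e => haA (by rw [e]; exact nA)
      have naA : S.neg * a ∉ A := fun hc' => haA (cancel_mem h nA hc')
      have naW : S.neg * a ∉ W := fun hc' => haW (cancel_mem h nW hc')
      have key : ∀ a : S.G, a ∉ A → a ∉ W → Hr S a := by
        intro a haA haW e he
        have hna : ¬ S.q S.neg a = S.zero := fun hc' => haW ((le_sup_left (a := D h S.neg)) hc')
        rcases hout a haA e he with e1 | e1 | e1 | e1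
        · exact Or.inl e1
        · exfalso
          rw [e1] at he
          exact hna (sy h he)
        · exfalso
          rw [e1] at he
          exact hna (sy h (pm h he (h.qs1 _) (by
            simp only [mul_comm, mul_left_comm, mul_assoc, ec h.exp2, h.exp2, mul_one, one_mul])))
        · exact Or.inr e1
      exact ⟨a1, a2, key a haA haW, key _ naA naW⟩
    rcases sub_union hBW with h1 | h1
    · exact Or.inl ((Nat.card_le_card_of_injective (Subgroup.inclusion h1)
        (Subgroup.inclusion_injective h1)).trans cA)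
    · exact Or.inr ⟨hn, (Nat.card_le_card_of_injective (Subgroup.inclusion h1)
        (Subgroup.inclusion_injective h1)).trans cW⟩

end

section

variable {F : Type} [Field F]

/-- the valuation ring -/
theorem val_four (h2 : (2 : F) ≠ 0) (hfin : (sqG F).index ≠ 0) (h16 : 16 < (sqG F).index)
    (hsmall : ∀ a : Fˣ, a ∉ sqG F → -a ∉ sqG F → (sqG F).relIndex (nG a) ≤ 4)
    (hneg : (-1 : Fˣ) ∈ sqG F ∨ 4 < (nG (-1 : Fˣ)).index) :
    ∃ O : ValuationSubring F, Sqr O ∧
      ((sqG F).relIndex (O.unitGroup ⊔ sqG F) ≤ 16 ∨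
        ((-1 : Fˣ) ∉ sqG F ∧
          (sqG F).relIndex (O.unitGroup ⊔ sqG F) ≤ 4 * (sqG F).relIndex (nG (-1 : Fˣ)))) ∧
      ∃ c : Fˣ, ∀ f : Fˣ, ¬ (((c * f ^ 2 : Fˣ) : F) ∈ O ∧ (((c * f ^ 2)⁻¹ : Fˣ) : F) ∈ O) := by
  obtain ⟨S, hS, hSf, hSq⟩ := exists_structure h2 (finSq_of_index hfin)
  obtain ⟨φ, hs, hk, hn, h0, hq⟩ := hS
  obtain ⟨B, hB⟩ := Pool.Agent.Y67.ET.t_BASIC S hSq
  have hcard : Nat.card S.G = (sqG F).index := card_eq hs hk
  have hn1 : S.neg = 1 ↔ (-1 : Fˣ) ∈ sqG F := by
    rw [← hn, hk, mem_sqG]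
  have hvs : ∀ g : S.G, g ≠ 1 → g ≠ S.neg → {b : S.G | S.q g b = S.zero}.ncard ≤ 4 := by
    intro g hg hgn
    obtain ⟨a, rfl⟩ := hs g
    have e := vs_eq hs hk h0 hq h2 a
    have e' : {b : S.G | S.q (φ a) b = S.zero}.ncard = vs S (φ a) := rfl
    rw [e', e]
    refine hsmall a (fun ha => hg ?_) (fun ha => hgn ?_)
    · rw [hk]
      exact mem_sqG.1 ha
    · have h1 : φ (-a) = 1 := by
        rw [hk]
        exact mem_sqG.1 ha
      have h3 : φ (-a) = S.neg * φ a := by rw [← hn, ← map_mul, neg_one_mul]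
      rw [h3] at h1
      exact (eq_of_mul hSq _ _ h1).symm
  have hneg1 : vs S S.neg = (sqG F).relIndex (nG (-1 : Fˣ)) := by
    rw [← hn]
    exact vs_eq hs hk h0 hq h2 (-1)
  have hsq : sqG F ≤ nG (-1 : Fˣ) := by
    intro x hx
    obtain ⟨y, rfl⟩ := mem_sqG.1 hx
    exact NormFrom.sq (-1) y
  have hmul : (sqG F).relIndex (nG (-1 : Fˣ)) * (nG (-1 : Fˣ)).index = (sqG F).index :=
    Subgroup.relIndex_mul_index hsq
  have hBc := card_bas2 hSq hvs B hB
  have hlt : 2 * Nat.card B < Nat.card S.G := by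
    rcases hBc with h1 | ⟨h1, h3⟩
    · omega
    · have h5 : 4 < (nG (-1 : Fˣ)).index := hneg.resolve_left fun hc => h1 (hn1.2 hc)
      rw [hcard, ← hmul]
      rw [hneg1] at h3
      have h6 : 0 < (sqG F).relIndex (nG (-1 : Fˣ)) := by
        rcases Nat.eq_zero_or_pos ((sqG F).relIndex (nG (-1 : Fˣ))) with h7 | h7
        · rw [h7, zero_mul] at hmul
          omega
        · exact h7
      calc 2 * Nat.card B ≤ 2 * (2 * (sqG F).relIndex (nG (-1 : Fˣ))) :=
            Nat.mul_le_mul_left _ h3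
        _ = (sqG F).relIndex (nG (-1 : Fˣ)) * 4 := by ring
        _ < _ := Nat.mul_lt_mul_of_pos_left h5 h6
  obtain ⟨O, hO, hOc, hc⟩ := exists_val hs hk hn h0 hq h2 B hB hlt
  have hU : (sqG F).relIndex (O.unitGroup ⊔ sqG F) = Nat.card (O.unitGroup.map φ) := by
    rw [Subgroup.relIndex_sup_right, ← ker_eq hk, Subgroup.relIndex_ker]
  refine ⟨O, hO, ?_, hc⟩
  rw [hU]
  rcases hBc with h1 | ⟨h1, h3⟩
  · left; omega
  · right
    rw [hneg1] at h3
    exact ⟨fun hc' => h1 (hn1.2 hc'), by omega⟩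

end

end Pool.Agent.U499.ETV
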